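import Pool.Agent.H306R2.RZ.Stubs4
import Pool.Agent.H306R2.RZ.Defs5
import Pool.Agent.H640R2.RZ4_HR
import Pool.Agent.H510R2.Div

set_option autoImplicit false

/-! Project RZ, task LS4: the fourth moment of short character sums. -/

namespace Pool.Agent.H899R2.RZ

open Finset Filter Topology MeasureTheory Pool.Agent.H306R2.RZ

noncomputable section

theorem js_mulL (a b : ℤ) (n : ℕ) : js (a * b) n = js a n * js b n := by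
  unfold js
  rw [jacobiSym.mul_left]
  push_cast
  rfl

theorem abs_js_le (k : ℤ) (n : ℕ) : |js k n| ≤ 1 := by
  unfold js
  rcases jacobiSym.trichotomy k n with h | h | h <;> rw [h] <;> norm_num

/-- square part and squarefree part -/
theorem dec (n : ℕ) : ∃ q : ℕ × ℕ, 1 ≤ n → q.1 ^ 2 * q.2 = n ∧ Squarefree q.2 := by
  by_cases h : 1 ≤ n
  · obtain ⟨a, b, ha⟩ := Nat.sq_mul_squarefree n
    exact ⟨(b, a), fun _ => ha⟩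
  · exact ⟨(0, 0), fun h' => absurd h' h⟩

def dc (n : ℕ) : ℕ × ℕ := (dec n).choose

theorem dc_spec {n : ℕ} (hn : 1 ≤ n) : (dc n).1 ^ 2 * (dc n).2 = n ∧ Squarefree (dc n).2 :=
  (dec n).choose_spec hn

/-- coefficients -/
def cc (H : ℕ) (c : ℕ → ℂ) (n1 n0 : ℕ) : ℂ :=
  ∑ p ∈ (Icc 1 H ×ˢ Icc 1 H).filter (fun p => dc (p.1 * p.2) = (n1, n0)), c p.1 * c p.2

theorem cc_le (H : ℕ) (c : ℕ → ℂ) (hc : ∀ h, ‖c h‖ ≤ 1) (n1 n0 : ℕ) :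
    ‖cc H c n1 n0‖ ≤ ((n1 ^ 2 * n0).divisors.card : ℝ) := by
  classical
  unfold cc
  refine (norm_sum_le _ _).trans ?_
  have h1 : ∀ p ∈ (Icc 1 H ×ˢ Icc 1 H).filter (fun p => dc (p.1 * p.2) = (n1, n0)),
      ‖c p.1 * c p.2‖ ≤ 1 := by
    intro p _
    rw [norm_mul]
    calc ‖c p.1‖ * ‖c p.2‖ ≤ 1 * 1 := by
          gcongr
          · exact hc _
          · exact hc _
      _ = 1 := one_mul 1
  refine (Finset.sum_le_card_nsmul _ _ 1 h1).trans ?_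
  rw [nsmul_eq_mul, mul_one]
  have h2 : (Icc 1 H ×ˢ Icc 1 H).filter (fun p => dc (p.1 * p.2) = (n1, n0)) ⊆
      (n1 ^ 2 * n0).divisorsAntidiagonal := by
    intro p hp
    rw [mem_filter, mem_product, mem_Icc, mem_Icc] at hp
    obtain ⟨⟨⟨h3, _⟩, h4, _⟩, h5⟩ := hp
    have h6 : 1 ≤ p.1 * p.2 := Nat.one_le_iff_ne_zero.2 (Nat.mul_ne_zero (by omega) (by omega))
    have h7 := (dc_spec h6).1
    rw [h5] at h7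
    rw [Nat.mem_divisorsAntidiagonal]
    exact ⟨h7.symm, by rw [h7]; omega⟩
  have h3 := Finset.card_le_card h2
  rw [← Nat.map_div_right_divisors, Finset.card_map] at h3
  exact_mod_cast h3

/-- the sum over the squarefree part -/
def tt (H : ℕ) (c : ℕ → ℂ) (κ n1 : ℕ) : ℂ :=
  ∑ n0 ∈ sqf (H ^ 2 / n1 ^ 2), cc H c n1 n0 * (js n0 κ : ℂ)

theorem sq_expand (H : ℕ) (c : ℕ → ℂ) (κ : ℕ) :
    (∑ h ∈ Icc 1 H, c h * (js h κ : ℂ)) ^ 2 =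
      ∑ n1 ∈ Icc 1 H, ((js n1 κ : ℂ)) ^ 2 * tt H c κ n1 := by
  classical
  have h1 : (∑ h ∈ Icc 1 H, c h * (js h κ : ℂ)) ^ 2 =
      ∑ p ∈ Icc 1 H ×ˢ Icc 1 H, c p.1 * c p.2 * (js ((p.1 * p.2 : ℕ) : ℤ) κ : ℂ) := by
    rw [sq, Finset.sum_mul_sum, Finset.sum_product]
    refine sum_congr rfl fun a _ => sum_congr rfl fun b _ => ?_
    show _ = c a * c b * (js ((a * b : ℕ) : ℤ) κ : ℂ)
    rw [Nat.cast_mul, js_mulL]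
    push_cast
    ring
  rw [h1]
  have h0 : ∀ p ∈ Icc 1 H ×ˢ Icc 1 H, 1 ≤ p.1 * p.2 ∧ p.1 * p.2 ≤ H ^ 2 := by
    intro p hp
    rw [mem_product, mem_Icc, mem_Icc] at hp
    obtain ⟨⟨h3, h3'⟩, h4, h4'⟩ := hp
    refine ⟨Nat.one_le_iff_ne_zero.2 (Nat.mul_ne_zero (by omega) (by omega)), ?_⟩
    rw [sq]
    exact Nat.mul_le_mul h3' h4'
  have hpos : ∀ p ∈ Icc 1 H ×ˢ Icc 1 H, 1 ≤ (dc (p.1 * p.2)).1 ∧ 1 ≤ (dc (p.1 * p.2)).2 := by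
    intro p hp
    obtain ⟨h3, h4⟩ := h0 p hp
    have h5 := (dc_spec h3).1
    constructor
    · rw [Nat.one_le_iff_ne_zero]
      intro h
      rw [h] at h5
      simp at h5
      rcases h5 with h5 | h5 <;> simp [h5] at h3
    · rw [Nat.one_le_iff_ne_zero]
      intro h
      rw [h] at h5
      simp at h5
      rcases h5 with h5 | h5 <;> simp [h5] at h3
  have h2 : ∀ p ∈ Icc 1 H ×ˢ Icc 1 H, (dc (p.1 * p.2)).1 ∈ Icc 1 H := by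
    intro p hp
    obtain ⟨h3, h4⟩ := h0 p hp
    obtain ⟨h6, h7⟩ := hpos p hp
    have h5 := (dc_spec h3).1
    rw [mem_Icc]
    refine ⟨h6, ?_⟩
    have h8 : (dc (p.1 * p.2)).1 ^ 2 ≤ H ^ 2 := by
      calc (dc (p.1 * p.2)).1 ^ 2 = (dc (p.1 * p.2)).1 ^ 2 * 1 := (mul_one _).symm
        _ ≤ (dc (p.1 * p.2)).1 ^ 2 * (dc (p.1 * p.2)).2 := Nat.mul_le_mul_left _ h7
        _ = p.1 * p.2 := h5
        _ ≤ H ^ 2 := h4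
    exact (Nat.pow_le_pow_iff_left (by norm_num)).1 h8
  rw [← Finset.sum_fiberwise_of_maps_to h2]
  refine sum_congr rfl fun n1 hn1 => ?_
  rw [mem_Icc] at hn1
  have h3 : ∀ p ∈ (Icc 1 H ×ˢ Icc 1 H).filter (fun p => (dc (p.1 * p.2)).1 = n1),
      (dc (p.1 * p.2)).2 ∈ sqf (H ^ 2 / n1 ^ 2) := by
    intro p hp
    rw [mem_filter] at hp
    obtain ⟨hp, hp1⟩ := hp
    obtain ⟨h4, h5⟩ := h0 p hp
    obtain ⟨h6, h7⟩ := hpos p hp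
    obtain ⟨h8, h9⟩ := dc_spec h4
    unfold sqf
    rw [mem_filter, mem_Icc]
    refine ⟨⟨h7, ?_⟩, h9⟩
    rw [Nat.le_div_iff_mul_le (pow_pos (by omega) 2), ← hp1, mul_comm, h8]
    exact h5
  rw [← Finset.sum_fiberwise_of_maps_to h3, tt, mul_sum]
  refine sum_congr rfl fun n0 _ => ?_
  rw [Finset.filter_filter, cc, sum_mul, mul_sum]
  have h4 : (Icc 1 H ×ˢ Icc 1 H).filter
      (fun p => (dc (p.1 * p.2)).1 = n1 ∧ (dc (p.1 * p.2)).2 = n0) =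
      (Icc 1 H ×ˢ Icc 1 H).filter (fun p => dc (p.1 * p.2) = (n1, n0)) := by
    refine Finset.filter_congr fun p _ => ?_
    rw [Prod.ext_iff]
  rw [h4]
  refine sum_congr rfl fun p hp => ?_
  rw [mem_filter] at hp
  obtain ⟨h5, h6⟩ := h0 p hp.1
  have h7 := (dc_spec h5).1
  rw [hp.2] at h7
  have h8 : ((p.1 * p.2 : ℕ) : ℤ) = (n1 : ℤ) * (n1 : ℤ) * (n0 : ℤ) := by
    rw [← h7]
    push_cast
    ring
  rw [h8, js_mulL, js_mulL]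
  push_cast
  ring

theorem pow4_le (H : ℕ) (c : ℕ → ℂ) (κ : ℕ) :
    ‖∑ h ∈ Icc 1 H, c h * (js h κ : ℂ)‖ ^ 4 ≤
      (∑ n1 ∈ Icc 1 H, 1 / (n1 : ℝ)) * ∑ n1 ∈ Icc 1 H, (n1 : ℝ) * ‖tt H c κ n1‖ ^ 2 := by
  have h1 : ‖∑ h ∈ Icc 1 H, c h * (js h κ : ℂ)‖ ^ 4 =
      ‖∑ n1 ∈ Icc 1 H, ((js n1 κ : ℂ)) ^ 2 * tt H c κ n1‖ ^ 2 := by
    rw [← sq_expand, norm_pow]
    ring
  rw [h1]
  have h2 : ‖∑ n1 ∈ Icc 1 H, ((js n1 κ : ℂ)) ^ 2 * tt H c κ n1‖ ≤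
      ∑ n1 ∈ Icc 1 H, ‖tt H c κ n1‖ := by
    refine (norm_sum_le _ _).trans (sum_le_sum fun n1 _ => ?_)
    rw [norm_mul, norm_pow, Complex.norm_real, Real.norm_eq_abs]
    calc |js n1 κ| ^ 2 * ‖tt H c κ n1‖ ≤ 1 ^ 2 * ‖tt H c κ n1‖ := by
          gcongr
          exact abs_js_le _ _
      _ = ‖tt H c κ n1‖ := by ring
  refine (pow_le_pow_left₀ (norm_nonneg _) h2 2).trans ?_
  apply Finset.sum_sq_le_sum_mul_sum_of_sq_le_mul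
  · intro i _
    positivity
  · intro i _
    positivity
  · intro i hi
    rw [mem_Icc] at hi
    have h3 : (i : ℝ) ≠ 0 := by
      have : i ≠ 0 := by omega
      exact_mod_cast this
    apply le_of_eq
    field_simp

theorem harm_le (H : ℕ) (hH : 1 ≤ H) (δ : ℝ) (hδ : 0 < δ) :
    ∑ n1 ∈ Icc 1 H, 1 / (n1 : ℝ) ≤ (1 + 1 / δ) * (H : ℝ) ^ δ := by
  have h1 : ∑ n1 ∈ Icc 1 H, 1 / (n1 : ℝ) = ((harmonic H : ℚ) : ℝ) := by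
    rw [harmonic_eq_sum_Icc]
    push_cast
    refine sum_congr rfl fun i _ => ?_
    rw [one_div]
  rw [h1]
  refine (harmonic_le_one_add_log H).trans ?_
  have h2 : (1 : ℝ) ≤ H := by exact_mod_cast hH
  have h3 : Real.log H ≤ (H : ℝ) ^ δ / δ := Real.log_le_rpow_div (by positivity) hδ
  have h4 : (1 : ℝ) ≤ (H : ℝ) ^ δ := Real.one_le_rpow h2 hδ.le
  calc 1 + Real.log H ≤ (H : ℝ) ^ δ + (H : ℝ) ^ δ / δ := add_le_add h4 h3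
    _ = (1 + 1 / δ) * (H : ℝ) ^ δ := by ring

/-- one value of the square part -/
theorem one_n1 (δ CB CD : ℝ) (hδ : 0 < δ) (hCB : 0 < CB) (hCD : 0 < CD)
    (hB : ∀ M N : ℕ, 1 ≤ M → 1 ≤ N → LSB M N (CB * ((M : ℝ) * N) ^ δ * (M + N)))
    (hD : ∀ n : ℕ, 1 ≤ n → (n.divisors.card : ℝ) ≤ CD * (n : ℝ) ^ δ)
    (K H : ℕ) (c : ℕ → ℂ) (hK : 1 ≤ K) (hH : 1 ≤ H) (hc : ∀ h, ‖c h‖ ≤ 1) (n1 : ℕ)
    (hn : 1 ≤ n1) (hn' : n1 ≤ H) :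
    ∑ κ ∈ osf K, (n1 : ℝ) * ‖tt H c κ n1‖ ^ 2 ≤
      1 / (n1 : ℝ) * ((CB * ((H : ℝ) ^ 2 * K) ^ δ * ((K : ℝ) + (H : ℝ) ^ 2)) *
        ((H : ℝ) ^ 2 * (CD * ((H : ℝ) ^ 2) ^ δ) ^ 2)) := by
  set M : ℕ := H ^ 2 / n1 ^ 2 with hM
  have hn0 : 0 < n1 ^ 2 := pow_pos (by omega) 2
  have hM1 : 1 ≤ M := by
    rw [hM, Nat.le_div_iff_mul_le hn0, one_mul]
    exact Nat.pow_le_pow_left hn' 2
  have hM2 : M ≤ H ^ 2 := Nat.div_le_self _ _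
  have hM2' : (M : ℝ) ≤ (H : ℝ) ^ 2 := by exact_mod_cast hM2
  have hMr : (M : ℝ) ≤ (H : ℝ) ^ 2 / (n1 : ℝ) ^ 2 := by
    have h1 : ((H ^ 2 / n1 ^ 2 : ℕ) : ℝ) ≤ ((H ^ 2 : ℕ) : ℝ) / ((n1 ^ 2 : ℕ) : ℝ) :=
      Nat.cast_div_le
    push_cast at h1
    exact h1
  have hn1r : (0 : ℝ) < n1 := by exact_mod_cast hn
  have hKr : (1 : ℝ) ≤ K := by exact_mod_cast hK
  have hHr : (1 : ℝ) ≤ H := by exact_mod_cast hH
  have hBnn : 0 ≤ CB * ((M : ℝ) * K) ^ δ * (M + K) := by positivity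
  have h1 := (Pool.Agent.H640R2.RZ4.HR M K _ hBnn (hB M K hM1 hK)).1 (cc H c n1)
  have h2 : ∀ n0 ∈ sqf M, ‖cc H c n1 n0‖ ^ 2 ≤ (CD * ((H : ℝ) ^ 2) ^ δ) ^ 2 := by
    intro n0 hn0'
    unfold sqf at hn0'
    rw [mem_filter, mem_Icc] at hn0'
    obtain ⟨⟨h3, h4⟩, _⟩ := hn0'
    apply pow_le_pow_left₀ (norm_nonneg _)
    refine (cc_le H c hc n1 n0).trans ?_
    have h5 : 1 ≤ n1 ^ 2 * n0 :=
      Nat.one_le_iff_ne_zero.2 (Nat.mul_ne_zero (by omega) (by omega))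
    refine (hD _ h5).trans ?_
    have h6 : n1 ^ 2 * n0 ≤ H ^ 2 := by
      rw [mul_comm, ← Nat.le_div_iff_mul_le hn0]
      exact h4
    have h7 : ((n1 ^ 2 * n0 : ℕ) : ℝ) ≤ (H : ℝ) ^ 2 := by exact_mod_cast h6
    gcongr
  have h3 : ∑ n0 ∈ sqf M, ‖cc H c n1 n0‖ ^ 2 ≤ (M : ℝ) * (CD * ((H : ℝ) ^ 2) ^ δ) ^ 2 := by
    refine (Finset.sum_le_card_nsmul _ _ _ h2).trans ?_
    rw [nsmul_eq_mul]
    have h4 : ((sqf M).card : ℝ) ≤ M := by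
      have h5 : (sqf M).card ≤ (Icc 1 M).card := Finset.card_filter_le _ _
      rw [Nat.card_Icc, Nat.add_sub_cancel] at h5
      exact_mod_cast h5
    gcongr
  rw [← mul_sum]
  have h4 : ∑ κ ∈ osf K, ‖tt H c κ n1‖ ^ 2 ≤
      (CB * ((H : ℝ) ^ 2 * K) ^ δ * ((K : ℝ) + (H : ℝ) ^ 2)) *
        ((H : ℝ) ^ 2 / (n1 : ℝ) ^ 2 * (CD * ((H : ℝ) ^ 2) ^ δ) ^ 2) := by
    calc ∑ κ ∈ osf K, ‖tt H c κ n1‖ ^ 2
        ≤ CB * ((M : ℝ) * K) ^ δ * (M + K) * ∑ n0 ∈ sqf M, ‖cc H c n1 n0‖ ^ 2 := h1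
      _ ≤ CB * ((M : ℝ) * K) ^ δ * (M + K) * ((M : ℝ) * (CD * ((H : ℝ) ^ 2) ^ δ) ^ 2) := by
        gcongr
      _ ≤ CB * ((H : ℝ) ^ 2 * K) ^ δ * ((H : ℝ) ^ 2 + K) *
          ((H : ℝ) ^ 2 / (n1 : ℝ) ^ 2 * (CD * ((H : ℝ) ^ 2) ^ δ) ^ 2) := by
        gcongr
      _ = _ := by ring
  calc (n1 : ℝ) * ∑ κ ∈ osf K, ‖tt H c κ n1‖ ^ 2
      ≤ (n1 : ℝ) * ((CB * ((H : ℝ) ^ 2 * K) ^ δ * ((K : ℝ) + (H : ℝ) ^ 2)) *
        ((H : ℝ) ^ 2 / (n1 : ℝ) ^ 2 * (CD * ((H : ℝ) ^ 2) ^ δ) ^ 2)) := by gcongr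
    _ = _ := by
      field_simp

/-- fourth moment, from Heath-Brown's large sieve -/
theorem LS4 (ε : ℝ) (hε : 0 < ε) : ∃ C : ℝ, 0 < C ∧ ∀ (K H : ℕ) (c : ℕ → ℂ), 1 ≤ K → 1 ≤ H →
    (∀ h, ‖c h‖ ≤ 1) →
    ∑ κ ∈ osf K, ‖∑ h ∈ Icc 1 H, c h * (js h κ : ℂ)‖ ^ 4 ≤
      C * ((K : ℝ) * H) ^ ε * ((K : ℝ) + (H : ℝ) ^ 2) * (H : ℝ) ^ 2 := by
  have hδ : 0 < ε / 8 := by positivity
  set δ : ℝ := ε / 8 with hδdef
  obtain ⟨CB, hCB, hB⟩ := Pool.Agent.H306R2.RZ.Stubs4.HBLS δ hδ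
  obtain ⟨CD, hCD, hD⟩ := Pool.Agent.H510R2.divisor_bound δ hδ
  refine ⟨(1 + 1 / δ) ^ 2 * CB * CD ^ 2, by positivity, ?_⟩
  intro K H c hK hH hc
  have hKr : (1 : ℝ) ≤ K := by exact_mod_cast hK
  have hHr : (1 : ℝ) ≤ H := by exact_mod_cast hH
  have hKH : (H : ℝ) ≤ (K : ℝ) * H := by nlinarith
  have hharm := harm_le H hH δ hδ
  have hharm0 : 0 ≤ ∑ n1 ∈ Icc 1 H, 1 / (n1 : ℝ) := sum_nonneg fun i _ => by positivity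
  set P : ℝ := (CB * ((H : ℝ) ^ 2 * K) ^ δ * ((K : ℝ) + (H : ℝ) ^ 2)) *
        ((H : ℝ) ^ 2 * (CD * ((H : ℝ) ^ 2) ^ δ) ^ 2) with hP
  have hP0 : 0 ≤ P := by positivity
  have h1 : ∑ κ ∈ osf K, ‖∑ h ∈ Icc 1 H, c h * (js h κ : ℂ)‖ ^ 4 ≤
      ((1 + 1 / δ) * (H : ℝ) ^ δ) ^ 2 * P := by
    calc ∑ κ ∈ osf K, ‖∑ h ∈ Icc 1 H, c h * (js h κ : ℂ)‖ ^ 4
        ≤ ∑ κ ∈ osf K, (∑ n1 ∈ Icc 1 H, 1 / (n1 : ℝ)) *
            ∑ n1 ∈ Icc 1 H, (n1 : ℝ) * ‖tt H c κ n1‖ ^ 2 :=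
          sum_le_sum fun κ _ => pow4_le H c κ
      _ = (∑ n1 ∈ Icc 1 H, 1 / (n1 : ℝ)) *
            ∑ n1 ∈ Icc 1 H, ∑ κ ∈ osf K, (n1 : ℝ) * ‖tt H c κ n1‖ ^ 2 := by
          rw [← mul_sum, Finset.sum_comm]
      _ ≤ (∑ n1 ∈ Icc 1 H, 1 / (n1 : ℝ)) * ∑ n1 ∈ Icc 1 H, 1 / (n1 : ℝ) * P := by
          refine mul_le_mul_of_nonneg_left (sum_le_sum fun n1 hn1 => ?_) hharm0
          rw [mem_Icc] at hn1
          exact one_n1 δ CB CD hδ hCB hCD hB hD K H c hK hH hc n1 hn1.1 hn1.2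
      _ = (∑ n1 ∈ Icc 1 H, 1 / (n1 : ℝ)) ^ 2 * P := by
          rw [← sum_mul]
          ring
      _ ≤ ((1 + 1 / δ) * (H : ℝ) ^ δ) ^ 2 * P := by
          gcongr
  refine h1.trans ?_
  have h2 : ((H : ℝ) ^ 2 * K) ^ δ ≤ (((K : ℝ) * H) ^ δ) ^ 2 := by
    rw [← Real.rpow_natCast (((K : ℝ) * H) ^ δ) 2, ← Real.rpow_mul (by positivity), mul_comm δ,
      Real.rpow_mul (by positivity)]
    apply Real.rpow_le_rpow (by positivity) _ hδ.le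
    push_cast
    rw [Real.rpow_two]
    nlinarith [mul_pos (show (0 : ℝ) < H by linarith) (show (0 : ℝ) < H by linarith)]
  have h3 : ((H : ℝ) ^ 2) ^ δ ≤ (((K : ℝ) * H) ^ δ) ^ 2 := by
    rw [← Real.rpow_natCast (((K : ℝ) * H) ^ δ) 2, ← Real.rpow_mul (by positivity), mul_comm δ,
      Real.rpow_mul (by positivity)]
    apply Real.rpow_le_rpow (by positivity) _ hδ.le
    push_cast
    rw [Real.rpow_two]
    gcongr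
  have h4 : (H : ℝ) ^ δ ≤ ((K : ℝ) * H) ^ δ := Real.rpow_le_rpow (by positivity) hKH hδ.le
  have h5 : ((K : ℝ) * H) ^ ε = (((K : ℝ) * H) ^ δ) ^ 8 := by
    rw [← Real.rpow_natCast (((K : ℝ) * H) ^ δ) 8, ← Real.rpow_mul (by positivity)]
    congr 1
    rw [hδdef]
    push_cast
    ring
  rw [h5]
  set Z : ℝ := ((K : ℝ) * H) ^ δ with hZ
  have hZ0 : 0 ≤ Z := by positivity
  calc ((1 + 1 / δ) * (H : ℝ) ^ δ) ^ 2 * P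
      ≤ ((1 + 1 / δ) * Z) ^ 2 * ((CB * Z ^ 2 * ((K : ℝ) + (H : ℝ) ^ 2)) *
        ((H : ℝ) ^ 2 * (CD * Z ^ 2) ^ 2)) := by
        rw [hP]
        gcongr
    _ = _ := by ring

end

end Pool.Agent.H899R2.RZ
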